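import Pool.Agent.H92.Hartogs.Final

/-!
# Weak and strong maximal extensions of `d` on the Hartogs triangle coincide

For the Hartogs triangle `T = {|z₁| < |z₂| < 1}` in `ℂ² = ℝ⁴` and every degree `q ≥ 1`
(in particular `q = 1` and `q = 2`), the weak maximal extension of the exterior derivative
from `L²` forms of degree `q` to `L²` forms of degree `q + 1` equals the strong one.
-/

open MeasureTheory Filter Topology
open scoped ContDiff ENNReal

namespace Pool.Agent.Results.MP_f65596_an.HartogsStrongWeak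

/-- `ℝ⁴`, identified with `ℂ²` by `z₁ = x₀ + i x₁` and `z₂ = x₂ + i x₃`. -/
abbrev E4 := EuclideanSpace ℝ (Fin 4)

/-- Complex-valued alternating `q`-linear forms on `ℝ⁴`; a differential `q`-form is a
function `E4 → Form q`. -/
abbrev Form (q : ℕ) := E4 [⋀^Fin q]→L[ℝ] ℂ

/-- The Hartogs triangle `|z₁| < |z₂| < 1`. -/
def hartogs : Set E4 :=
  {x | ‖(⟨x 0, x 1⟩ : ℂ)‖ < ‖(⟨x 2, x 3⟩ : ℂ)‖ ∧ ‖(⟨x 2, x 3⟩ : ℂ)‖ < 1}

/-- Lebesgue measure restricted to the Hartogs triangle. -/
noncomputable def muT : Measure E4 := volume.restrict hartogs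

/-- `f` is a square integrable `q`-form on the Hartogs triangle. -/
def SqInt (q : ℕ) (f : E4 → Form q) : Prop := MemLp f 2 muT

/-- The `L²` distance of two `q`-forms on the Hartogs triangle. -/
noncomputable def distL2 (q : ℕ) (f g : E4 → Form q) : ℝ≥0∞ :=
  eLpNorm (fun x => f x - g x) 2 muT

/-- `φ` is a smooth `q`-form on all of `ℝ⁴`. -/
def SmoothForm (q : ℕ) (φ : E4 → Form q) : Prop := ContDiff ℝ ∞ φ

/-- The classical exterior derivative of a `q`-form. -/
noncomputable def dClassical (q : ℕ) (φ : E4 → Form q) : E4 → Form (q + 1) := extDeriv φ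

/-- The function `x ↦ f x (v₁, …, v_q)`. -/
noncomputable def coeff (q : ℕ) (f : E4 → Form q) (v : Fin q → E4) (x : E4) : ℂ := f x v

/-- Test functions: smooth, with compact support contained in the Hartogs triangle. -/
structure IsTest (η : E4 → ℝ) : Prop where
  smooth : ContDiff ℝ ∞ η
  compact : HasCompactSupport η
  sub : tsupport η ⊆ hartogs

/-- `d f = g` in the sense of distributions on the Hartogs triangle, tested against all test
functions and evaluated on all `(q+1)`-tuples of vectors. -/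
def DistDeriv (q : ℕ) (f : E4 → Form q) (g : E4 → Form (q + 1)) : Prop :=
  ∀ η : E4 → ℝ, IsTest η → ∀ v : Fin (q + 1) → E4,
    ∫ x, (η x : ℂ) * coeff (q + 1) g v x ∂muT =
      -∑ i : Fin (q + 1), (-1 : ℂ) ^ (i : ℕ) *
        ∫ x, (fderiv ℝ η x (v i) : ℂ) * coeff q f (i.removeNth v) x ∂muT

/-- `f` is in the domain of the weak maximal extension of `d` (in degree `q`) and
`d f = g`. -/
def WeakExt (q : ℕ) (f : E4 → Form q) (g : E4 → Form (q + 1)) : Prop :=
  SqInt q f ∧ SqInt (q + 1) g ∧ DistDeriv q f g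

/-- `f` is in the domain of the strong maximal extension of `d` (in degree `q`) and
`d_s f = g`: there are `q`-forms `φ n`, smooth on all of `ℝ⁴`, such that `φ n → f` and
`d (φ n) → g` in `L²` of the Hartogs triangle. -/
def StrongExt (q : ℕ) (f : E4 → Form q) (g : E4 → Form (q + 1)) : Prop :=
  SqInt q f ∧ SqInt (q + 1) g ∧ ∃ φ : ℕ → E4 → Form q, (∀ n, SmoothForm q (φ n)) ∧
    Tendsto (fun n => distL2 q (φ n) f) atTop (𝓝 0) ∧
    Tendsto (fun n => distL2 (q + 1) (dClassical q (φ n)) g) atTop (𝓝 0)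

theorem hartogs_eq : hartogs = Pool.Agent.H92.TT := rfl

theorem tst_iff (η : E4 → ℝ) : IsTest η ↔ Pool.Agent.H92.Tst Pool.Agent.H92.TT η :=
  ⟨fun h => ⟨h.1, h.2, h.3⟩, fun h => ⟨h.1, h.2, h.3⟩⟩

theorem dist_iff (q : ℕ) (f : E4 → Form q) (g : E4 → Form (q + 1)) :
    DistDeriv q f g ↔ Pool.Agent.H92.WeakG f g := by
  unfold DistDeriv Pool.Agent.H92.WeakG coeff muT
  refine forall_congr' fun η => ?_
  rw [tst_iff]
  refine forall_congr' fun _ => forall_congr' fun v => ?_
  have e1 : ∀ x, (η x : ℂ) * g x v = η x • g x v := fun x => (Complex.real_smul).symm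
  have e2 : ∀ i : Fin (q + 1), ∀ x, (fderiv ℝ η x (v i) : ℂ) * f x (i.removeNth v) =
      fderiv ℝ η x (v i) • f x (i.removeNth v) := fun i x => (Complex.real_smul).symm
  have e3 : ∀ (i : Fin (q + 1)) (z : ℂ), (-1 : ℂ) ^ (i : ℕ) * z = (-1 : ℤ) ^ (i : ℕ) • z := by
    intro i z
    rw [zsmul_eq_mul]
    push_cast
    rfl
  simp only [e1, e2, e3, hartogs_eq]

/-- **The weak and the strong maximal extension of `d` coincide on the Hartogs triangle**,
in every degree `q ≥ 1`; in particular for `q = 1` and `q = 2`. -/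
theorem result (q : ℕ) (hq : 1 ≤ q) (f : E4 → Form q) (g : E4 → Form (q + 1)) :
    WeakExt q f g ↔ StrongExt q f g := by
  constructor
  · rintro ⟨hf, hg, h⟩
    exact ⟨hf, hg, Pool.Agent.H92.strong_of_weak hq hf hg ((dist_iff q f g).1 h)⟩
  · rintro ⟨hf, hg, h⟩
    exact ⟨hf, hg, (dist_iff q f g).2 (Pool.Agent.H92.weak_of_strong hf hg h)⟩

end Pool.Agent.Results.MP_f65596_an.HartogsStrongWeak
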